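import Pool.Agent.TH55.PowD

set_option autoImplicit false

open MeasureTheory Filter Topology ComplexConjugate
open scoped SchwartzMap ENNReal NNReal FourierTransform

namespace Pool.Agent.Y338.BP

open Pool.Agent.TH55.PowA

/-- the root of unity -/
noncomputable def om (N : ℕ) : ℂ := Complex.exp (2 * Real.pi * Complex.I / N)

lemma om_prim {N : ℕ} (hN : N ≠ 0) : IsPrimitiveRoot (om N) N := Complex.isPrimitiveRoot_exp N hN

lemma om_norm1 {N : ℕ} (hN : N ≠ 0) : ‖om N‖ = 1 := (om_prim hN).norm'_eq_one hN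

lemma hk {N : ℕ} (hN : N ≠ 0) {k : ℝ} (hk0 : 0 ≤ k) (hk1 : k < 1) (j : ℕ) :
    ‖(k : ℂ) * (om N) ^ j‖ < 1 := by
  rw [norm_mul, norm_pow, om_norm1 hN, one_pow, mul_one, Complex.norm_real,
    Real.norm_of_nonneg hk0]
  exact hk1

/-- Bessel inequality for the discrete Fourier transform -/
lemma bessel {N M : ℕ} (hN : N ≠ 0) (hM : M < N) (v : ℕ → ℂ) :
    ∑ n ∈ Finset.range (M + 1), ‖∑ j ∈ Finset.range N, ((N : ℂ)⁻¹ * ((om N) ^ j) ^ (N + 1 - n)) * v j‖ ^ 2
      ≤ (N : ℝ)⁻¹ * ∑ j ∈ Finset.range N, ‖v j‖ ^ 2 := by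
  have hNc : (N : ℂ) ≠ 0 := by exact_mod_cast hN
  have hNr : (0 : ℝ) < N := by exact_mod_cast Nat.pos_of_ne_zero hN
  have hp := om_prim hN
  have h1 := om_norm1 hN
  set c : ℕ → ℂ := fun n => ∑ j ∈ Finset.range N, ((N : ℂ)⁻¹ * ((om N) ^ j) ^ (N + 1 - n)) * v j
    with hc
  -- orthogonality
  have hcj : ∀ m : ℕ, (starRingEnd ℂ) ((om N) ^ m) * (om N) ^ m = 1 := by
    intro m
    rw [← Complex.normSq_eq_conj_mul_self, Complex.normSq_eq_norm_sq, norm_pow, h1]
    simp
  have horth : ∀ n ∈ Finset.range (M + 1), ∀ m ∈ Finset.range (M + 1),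
      ∑ j ∈ Finset.range N, (om N ^ j) ^ (N + 1 - n) * (starRingEnd ℂ) ((om N ^ j) ^ (N + 1 - m))
        = if n = m then (N : ℂ) else 0 := by
    intro n hn m hm
    rw [Finset.mem_range] at hn hm
    have hterm : ∀ j : ℕ, (om N ^ j) ^ (N + 1 - n) * (starRingEnd ℂ) ((om N ^ j) ^ (N + 1 - m))
        = (om N ^ (N + m - n)) ^ j := by
      intro j
      have e1 : (om N ^ j) ^ (N + 1 - m) ≠ 0 := by
        apply pow_ne_zero; apply pow_ne_zero
        intro h; rw [h] at h1; simp at h1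
      have e2 : (starRingEnd ℂ) ((om N ^ j) ^ (N + 1 - m)) * (om N ^ j) ^ (N + 1 - m) = 1 := by
        rw [← pow_mul]; exact hcj _
      apply mul_right_cancel₀ e1
      rw [mul_assoc, e2, mul_one, ← pow_mul, ← pow_mul, ← pow_mul, ← pow_add]
      have e3 : j * (N + 1 - n) + N * j = (N + m - n) * j + j * (N + 1 - m) := by
        have : (N + 1 - n) + N = (N + m - n) + (N + 1 - m) := by omega
        calc j * (N + 1 - n) + N * j = ((N + 1 - n) + N) * j := by ring
          _ = ((N + m - n) + (N + 1 - m)) * j := by rw [this]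
          _ = _ := by ring
      rw [← e3, pow_add, pow_mul (om N) N j, hp.pow_eq_one, one_pow, mul_one]
    simp only [hterm]
    rw [root_sum hp]
    by_cases hnm : n = m
    · subst hnm
      rw [if_pos, if_pos rfl]
      simp
    · rw [if_neg, if_neg hnm]
      intro hd
      apply hnm
      obtain ⟨q, hq⟩ := hd
      have hq1 : q = 1 := by
        rcases Nat.lt_or_ge q 1 with h | h
        · interval_cases q; omega
        · rcases Nat.lt_or_ge q 2 with h' | h'
          · omega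
          · have := Nat.mul_le_mul_left N h'
            omega
      subst hq1
      omega
  -- expand the square
  have key : (0 : ℝ) ≤ ∑ j ∈ Finset.range N, ‖v j - ∑ n ∈ Finset.range (M + 1),
      c n * (starRingEnd ℂ) ((om N ^ j) ^ (N + 1 - n))‖ ^ 2 :=
    Finset.sum_nonneg fun _ _ => by positivity
  have hexp : ((∑ j ∈ Finset.range N, ‖v j - ∑ n ∈ Finset.range (M + 1),
      c n * (starRingEnd ℂ) ((om N ^ j) ^ (N + 1 - n))‖ ^ 2 : ℝ) : ℂ)
      = ((∑ j ∈ Finset.range N, ‖v j‖ ^ 2 : ℝ) : ℂ)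
        - (N : ℂ) * ((∑ n ∈ Finset.range (M + 1), ‖c n‖ ^ 2 : ℝ) : ℂ) := by
    have hsq : ∀ z : ℂ, ((‖z‖ ^ 2 : ℝ) : ℂ) = z * (starRingEnd ℂ) z := by
      intro z; rw [Complex.mul_conj, Complex.normSq_eq_norm_sq]
    push_cast
    have hsq' : ∀ z : ℂ, ((‖z‖ : ℂ)) ^ 2 = z * (starRingEnd ℂ) z := by
      intro z; rw [← hsq]; push_cast; rfl
    simp only [hsq', map_sub, map_sum, map_mul, Complex.conj_conj]
    have hcv : ∀ n ∈ Finset.range (M + 1), ∑ j ∈ Finset.range N,
        (om N ^ j) ^ (N + 1 - n) * v j = N * c n := by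
      intro n _
      rw [hc]
      simp only
      rw [Finset.mul_sum]
      refine Finset.sum_congr rfl fun j _ => ?_
      field_simp
    have hcv' : ∀ n ∈ Finset.range (M + 1), ∑ j ∈ Finset.range N,
        (starRingEnd ℂ) ((om N ^ j) ^ (N + 1 - n)) * (starRingEnd ℂ) (v j)
          = N * (starRingEnd ℂ) (c n) := by
      intro n hn
      have := congrArg (starRingEnd ℂ) (hcv n hn)
      simpa [map_sum, map_mul] using this
    have e : ∀ j : ℕ, (v j - ∑ n ∈ Finset.range (M + 1), c n * (starRingEnd ℂ) ((om N ^ j) ^ (N + 1 - n)))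
        * ((starRingEnd ℂ) (v j) - ∑ n ∈ Finset.range (M + 1), (starRingEnd ℂ) (c n) * (om N ^ j) ^ (N + 1 - n))
        = v j * (starRingEnd ℂ) (v j)
          - ∑ n ∈ Finset.range (M + 1), (starRingEnd ℂ) (c n) * ((om N ^ j) ^ (N + 1 - n) * v j)
          - ∑ n ∈ Finset.range (M + 1), c n * ((starRingEnd ℂ) ((om N ^ j) ^ (N + 1 - n)) * (starRingEnd ℂ) (v j))
          + ∑ m ∈ Finset.range (M + 1), ∑ n ∈ Finset.range (M + 1), c m * (starRingEnd ℂ) (c n) *
              ((om N ^ j) ^ (N + 1 - n) * (starRingEnd ℂ) ((om N ^ j) ^ (N + 1 - m))) := by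
      intro j
      rw [sub_mul, mul_sub, mul_sub, Finset.sum_mul_sum, Finset.mul_sum, Finset.sum_mul]
      have a1 : ∑ n ∈ Finset.range (M + 1), v j * ((starRingEnd ℂ) (c n) * (om N ^ j) ^ (N + 1 - n))
          = ∑ n ∈ Finset.range (M + 1), (starRingEnd ℂ) (c n) * ((om N ^ j) ^ (N + 1 - n) * v j) :=
        Finset.sum_congr rfl fun _ _ => by ring
      have a2 : ∑ n ∈ Finset.range (M + 1), c n * (starRingEnd ℂ) ((om N ^ j) ^ (N + 1 - n)) * (starRingEnd ℂ) (v j)
          = ∑ n ∈ Finset.range (M + 1), c n * ((starRingEnd ℂ) ((om N ^ j) ^ (N + 1 - n)) * (starRingEnd ℂ) (v j)) :=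
        Finset.sum_congr rfl fun _ _ => by ring
      have a3 : ∑ m ∈ Finset.range (M + 1), ∑ n ∈ Finset.range (M + 1),
          c m * (starRingEnd ℂ) ((om N ^ j) ^ (N + 1 - m)) * ((starRingEnd ℂ) (c n) * (om N ^ j) ^ (N + 1 - n))
          = ∑ m ∈ Finset.range (M + 1), ∑ n ∈ Finset.range (M + 1), c m * (starRingEnd ℂ) (c n) *
              ((om N ^ j) ^ (N + 1 - n) * (starRingEnd ℂ) ((om N ^ j) ^ (N + 1 - m))) :=
        Finset.sum_congr rfl fun _ _ => Finset.sum_congr rfl fun _ _ => by ring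
      rw [a1, a2, a3]
      ring
    simp only [e]
    rw [Finset.sum_add_distrib, Finset.sum_sub_distrib, Finset.sum_sub_distrib]
    have b1 : ∑ j ∈ Finset.range N, ∑ n ∈ Finset.range (M + 1), (starRingEnd ℂ) (c n) * ((om N ^ j) ^ (N + 1 - n) * v j)
        = ∑ n ∈ Finset.range (M + 1), N * (c n * (starRingEnd ℂ) (c n)) := by
      rw [Finset.sum_comm]
      refine Finset.sum_congr rfl fun n hn => ?_
      rw [← Finset.mul_sum, hcv n hn]
      ring
    have b2 : ∑ j ∈ Finset.range N, ∑ n ∈ Finset.range (M + 1), c n * ((starRingEnd ℂ) ((om N ^ j) ^ (N + 1 - n)) * (starRingEnd ℂ) (v j))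
        = ∑ n ∈ Finset.range (M + 1), N * (c n * (starRingEnd ℂ) (c n)) := by
      rw [Finset.sum_comm]
      refine Finset.sum_congr rfl fun n hn => ?_
      rw [← Finset.mul_sum, hcv' n hn]
      ring
    have b3 : ∑ j ∈ Finset.range N, ∑ m ∈ Finset.range (M + 1), ∑ n ∈ Finset.range (M + 1), c m * (starRingEnd ℂ) (c n) *
              ((om N ^ j) ^ (N + 1 - n) * (starRingEnd ℂ) ((om N ^ j) ^ (N + 1 - m)))
        = ∑ n ∈ Finset.range (M + 1), N * (c n * (starRingEnd ℂ) (c n)) := by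
      rw [Finset.sum_comm]
      refine Finset.sum_congr rfl fun m hm => ?_
      rw [Finset.sum_comm]
      have : ∀ n ∈ Finset.range (M + 1), ∑ j ∈ Finset.range N, c m * (starRingEnd ℂ) (c n) *
              ((om N ^ j) ^ (N + 1 - n) * (starRingEnd ℂ) ((om N ^ j) ^ (N + 1 - m)))
          = if n = m then N * (c m * (starRingEnd ℂ) (c m)) else 0 := by
        intro n hn
        rw [← Finset.mul_sum, horth n hn m hm]
        split_ifs with h
        · subst h; ring
        · ring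
      rw [Finset.sum_congr rfl this, Finset.sum_ite_eq' , if_pos hm]
    rw [b1, b2, b3, ← Finset.mul_sum]
    ring
  have hre : ∑ j ∈ Finset.range N, ‖v j - ∑ n ∈ Finset.range (M + 1),
      c n * (starRingEnd ℂ) ((om N ^ j) ^ (N + 1 - n))‖ ^ 2
      = ∑ j ∈ Finset.range N, ‖v j‖ ^ 2 - N * ∑ n ∈ Finset.range (M + 1), ‖c n‖ ^ 2 := by
    exact_mod_cast hexp
  rw [hre] at key
  rw [inv_mul_eq_div, le_div_iff₀ hNr]
  linarith

end Pool.Agent.Y338.BP
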