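import Pool.Agent.Y338.BP.A

set_option autoImplicit false

open MeasureTheory Filter Topology ComplexConjugate
open scoped SchwartzMap ENNReal NNReal FourierTransform

namespace Pool.Agent.Y338.BP

open Pool.Agent.TH55.PowA

/-- the Moebius transforms of the symbol -/
noncomputable def sy {N : ℕ} (hN : N ≠ 0) {k : ℝ} (hk0 : 0 ≤ k) (hk1 : k < 1) (j : ℕ) (ξ : ℂ) : ℂ :=
  bs (Ae ((k : ℂ) * (om N) ^ j) (hk hN hk0 hk1 j) ξ)

/-- the weights -/
noncomputable def wt (N n j : ℕ) : ℂ := (N : ℂ)⁻¹ * ((om N) ^ j) ^ (N + 1 - n)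

/-- the averaged symbol -/
noncomputable def as {N : ℕ} (hN : N ≠ 0) {k : ℝ} (hk0 : 0 ≤ k) (hk1 : k < 1) (n : ℕ) (ξ : ℂ) : ℂ :=
  ∑ j ∈ Finset.range N, wt N n j * sy hN hk0 hk1 j ξ

/-- the limit coefficients -/
noncomputable def lc (k : ℝ) (n : ℕ) : ℂ :=
  if n = 0 then (k : ℂ) else (1 - (k : ℂ) ^ 2) * (-(k : ℂ)) ^ (n - 1)

lemma adm_sy {N : ℕ} (hN : N ≠ 0) {k : ℝ} (hk0 : 0 ≤ k) (hk1 : k < 1) (j : ℕ) :
    Adm (sy hN hk0 hk1 j) := adm_bs _ _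

lemma norm_as_le {N : ℕ} (hN : N ≠ 0) {k : ℝ} (hk0 : 0 ≤ k) (hk1 : k < 1) (n : ℕ) (ξ : ℂ) :
    ‖as hN hk0 hk1 n ξ‖ ≤ 1 := by
  unfold as
  refine (norm_sum_le _ _).trans ?_
  have h : ∀ j ∈ Finset.range N, ‖wt N n j * sy hN hk0 hk1 j ξ‖ ≤ (N : ℝ)⁻¹ := by
    intro j _
    unfold wt
    rw [norm_mul, norm_mul, norm_pow, norm_pow, om_norm1 hN, one_pow, one_pow, mul_one, norm_inv,
      Complex.norm_natCast]
    exact mul_le_of_le_one_right (by positivity) ((adm_sy hN hk0 hk1 j).le1 ξ)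
  refine (Finset.sum_le_sum h).trans ?_
  rw [Finset.sum_const, Finset.card_range, nsmul_eq_mul, mul_inv_cancel₀ (by exact_mod_cast hN)]

lemma adm_as {N : ℕ} (hN : N ≠ 0) {k : ℝ} (hk0 : 0 ≤ k) (hk1 : k < 1) (n : ℕ) :
    Adm (as hN hk0 hk1 n) := by
  refine ⟨?_, norm_as_le hN hk0 hk1 n⟩
  unfold as
  exact Finset.measurable_fun_sum _ fun j _ => (adm_sy hN hk0 hk1 j).meas.const_mul _

lemma as_eq_av {n N : ℕ} (hN : N ≠ 0) (hn : 1 ≤ n) (hnN : n < N) {k : ℝ} (hk0 : 0 ≤ k)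
    (hk1 : k < 1) (ξ : ℂ) :
    as hN hk0 hk1 n ξ = av n N k (fun j => hk_of hN hk0 hk1 j) ξ := by
  unfold as av wt sy
  refine Finset.sum_congr rfl fun j _ => ?_
  have : N + 1 - n = N - (n - 1) := by omega
  rw [this]
  rfl

lemma as_zero {N : ℕ} (hN : 1 < N) {k : ℝ} (hk0 : 0 ≤ k) (hk1 : k < 1) (ξ : ℂ) (hξ : ξ ≠ 0) :
    as (by omega : N ≠ 0) hk0 hk1 0 ξ = (k : ℂ) + (1 - (k : ℂ) ^ 2) * bs ξ *
      (-(k : ℂ) * bs ξ) ^ (N - 1) / (1 - (-(k : ℂ) * bs ξ) ^ N) := by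
  have hN0 : N ≠ 0 := by omega
  have hNp : 0 < N := by omega
  have hNc : (N : ℂ) ≠ 0 := by exact_mod_cast hN0
  have hpr := om_prim hN0
  have hω1 := om_norm1 hN0
  have hcc : (starRingEnd ℂ) (om N) = om N ^ (N - 1) := by
    have h1 : om N * (starRingEnd ℂ) (om N) = 1 := by
      rw [c_conj, hω1]; simp
    have h2 : om N * om N ^ (N - 1) = 1 := by
      rw [← pow_succ', Nat.sub_add_cancel hNp, hpr.pow_eq_one]
    have h3 : om N ≠ 0 := by intro h; rw [h] at hω1; simp at hω1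
    exact mul_left_cancel₀ h3 (h1.trans h2.symm)
  have hb := bs_norm ξ hξ
  unfold as
  have hterm : ∀ j ∈ Finset.range N, wt N 0 j * sy hN0 hk0 hk1 j ξ
      = (N : ℂ)⁻¹ * k + (N : ℂ)⁻¹ * (1 - (k : ℂ) ^ 2) * bs ξ *
        ((om N ^ j) ^ (N - (N - 1)) * (1 - om N ^ j * (-(k : ℂ) * bs ξ))⁻¹) := by
    intro j _
    unfold sy wt
    rw [bs_Ae _ _ ξ hξ]
    have e1 : (starRingEnd ℂ) ((k : ℂ) * om N ^ j) = k * (om N ^ (N - 1)) ^ j := by
      rw [map_mul, Complex.conj_ofReal, map_pow, hcc]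
    have e2 : ((k : ℂ) * om N ^ j) * (starRingEnd ℂ) ((k : ℂ) * om N ^ j) = (k : ℂ) ^ 2 := by
      rw [c_conj, norm_mul, norm_pow, hω1, one_pow, mul_one, Complex.norm_real,
        Real.norm_of_nonneg hk0]
      push_cast
      ring
    rw [e2, e1]
    have e5 : (om N ^ j) ^ (N + 1 - 0) = om N ^ j := by
      rw [Nat.sub_zero, pow_succ, ← pow_mul, mul_comm j N, pow_mul, hpr.pow_eq_one, one_pow,
        one_mul]
    have e6 : (om N ^ j) ^ (N - (N - 1)) = om N ^ j := by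
      rw [show N - (N - 1) = 1 by omega, pow_one]
    have e3 : om N ^ j * (om N ^ (N - 1)) ^ j = 1 := by
      rw [← pow_mul, ← pow_add]
      have : j + (N - 1) * j = N * j := by
        have : N = (N - 1) + 1 := by omega
        nth_rw 2 [this]
        ring
      rw [this, pow_mul, hpr.pow_eq_one, one_pow]
    have e4 : (1 : ℂ) + (k : ℂ) * om N ^ j * bs ξ = 1 - om N ^ j * (-(k : ℂ) * bs ξ) := by ring
    rw [e4, e5, e6, div_eq_mul_inv]
    linear_combination ((N : ℂ)⁻¹ * k) * e3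
  rw [Finset.sum_congr rfl hterm, Finset.sum_add_distrib, Finset.sum_const, Finset.card_range,
    nsmul_eq_mul, ← Finset.mul_sum, filt hNp hpr _ _ (N - 1) (by omega)]
  · field_simp
  · rw [norm_mul, hb, mul_one, norm_neg, Complex.norm_real, Real.norm_of_nonneg hk0]
    exact hk1

lemma tendsto_as (n : ℕ) {k : ℝ} (hk0 : 0 ≤ k) (hk1 : k < 1) (ξ : ℂ) (hξ : ξ ≠ 0) :
    Tendsto (fun M : ℕ => as (by omega : n + 2 + M ≠ 0) hk0 hk1 n ξ) atTop
      (𝓝 (lc k n * bs ξ ^ n)) := by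
  have hy : ‖-(k : ℂ) * bs ξ‖ < 1 := by
    rw [norm_mul, bs_norm ξ hξ, mul_one, norm_neg, Complex.norm_real, Real.norm_of_nonneg hk0]
    exact hk1
  rcases Nat.eq_zero_or_pos n with h0 | hn
  · subst h0
    have h1 : ∀ M : ℕ, as (by omega : 0 + 2 + M ≠ 0) hk0 hk1 0 ξ = (k : ℂ) + (1 - (k : ℂ) ^ 2) *
        bs ξ * (-(k : ℂ) * bs ξ) ^ (M + 1) / (1 - (-(k : ℂ) * bs ξ) ^ (M + 2)) := by
      intro M
      rw [as_zero (by omega) hk0 hk1 ξ hξ]
      rw [show 0 + 2 + M - 1 = M + 1 by omega, show 0 + 2 + M = M + 2 by omega]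
    simp only [h1]
    have h2 : ∀ d : ℕ, Tendsto (fun M : ℕ => (-(k : ℂ) * bs ξ) ^ (M + d)) atTop (𝓝 0) := by
      intro d
      exact (tendsto_pow_atTop_nhds_zero_of_norm_lt_one hy).comp (tendsto_add_atTop_nat d)
    have h3 : Tendsto (fun M : ℕ => (k : ℂ) + (1 - (k : ℂ) ^ 2) * bs ξ *
        (-(k : ℂ) * bs ξ) ^ (M + 1) / (1 - (-(k : ℂ) * bs ξ) ^ (M + 2))) atTop
        (𝓝 ((k : ℂ) + (1 - (k : ℂ) ^ 2) * bs ξ * 0 / (1 - 0))) :=
      tendsto_const_nhds.add (((tendsto_const_nhds.mul (h2 1))).div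
        (tendsto_const_nhds.sub (h2 2)) (by simp))
    have h4 : (k : ℂ) + (1 - (k : ℂ) ^ 2) * bs ξ * 0 / (1 - 0) = lc k 0 * bs ξ ^ 0 := by
      simp [lc]
    rw [h4] at h3
    exact h3
  · have h := (tendsto_av n hn k hk0 hk1 ξ hξ).comp (tendsto_add_atTop_nat 1)
    have e : Pool.Agent.TH55.PowA.lim n k = lc k n := by
      unfold Pool.Agent.TH55.PowA.lim lc
      rw [if_neg (by omega)]
    rw [e] at h
    refine h.congr fun M => ?_
    rw [as_eq_av (by omega) hn (by omega) hk0 hk1 ξ]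
    simp only [Function.comp]
    congr 1
    omega

lemma T_tendsto_as (n : ℕ) {k : ℝ} (hk0 : 0 ≤ k) (hk1 : k < 1) (f : 𝓢(ℂ, ℂ)) (z : ℂ) :
    Tendsto (fun M : ℕ => T (as (by omega : n + 2 + M ≠ 0) hk0 hk1 n) f z) atTop
      (𝓝 (lc k n * T (fun ξ => bs ξ ^ n) f z)) := by
  have e : lc k n * T (fun ξ => bs ξ ^ n) f z = ∫ ξ : ℂ,
      Complex.exp (2 * (Real.pi : ℂ) * Complex.I * ((sm z ξ : ℝ) : ℂ)) *
        ((lc k n * bs ξ ^ n) * Ft f ξ) := by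
    unfold T
    rw [← integral_const_mul]
    refine integral_congr_ae (Eventually.of_forall fun ξ => ?_)
    simp only
    ring
  rw [e]
  unfold T
  refine tendsto_integral_of_dominated_convergence (fun ξ => ‖Ft f ξ‖)
    (fun M => (T_integrand_int (adm_as (by omega) hk0 hk1 n) f z).aestronglyMeasurable)
    (Ft_int f).norm (fun M => Eventually.of_forall fun ξ => ?_) ?_
  · rw [norm_mul, norm_ex, one_mul, norm_mul]
    calc _ ≤ 1 * ‖Ft f ξ‖ := by gcongr; exact norm_as_le (by omega) hk0 hk1 n ξ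
      _ = _ := one_mul _
  · filter_upwards [ae_ne] with ξ hξ
    exact ((tendsto_as n hk0 hk1 ξ hξ).mul_const _).const_mul _

end Pool.Agent.Y338.BP
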