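import Pool.Agent.Y338.BP.B

set_option autoImplicit false

open MeasureTheory Filter Topology ComplexConjugate
open scoped SchwartzMap ENNReal NNReal FourierTransform

namespace Pool.Agent.Y338.BP

open Pool.Agent.TH55.PowA

/-- the averaged operators for `N = L + 2` -/
noncomputable def EL {k : ℝ} (hk0 : 0 ≤ k) (hk1 : k < 1) (f : 𝓢(ℂ, ℂ)) (L n : ℕ) (z : ℂ) : ℂ :=
  T (as (Nat.succ_ne_zero (L + 1)) hk0 hk1 n) f z

lemma EL_tendsto {k : ℝ} (hk0 : 0 ≤ k) (hk1 : k < 1) (f : 𝓢(ℂ, ℂ)) (n : ℕ) (z : ℂ) :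
    Tendsto (fun L : ℕ => EL hk0 hk1 f L n z) atTop (𝓝 (lc k n * T (fun ξ => bs ξ ^ n) f z)) := by
  rw [← tendsto_add_atTop_iff_nat n]
  refine (T_tendsto_as n hk0 hk1 f z).congr fun M => ?_
  unfold EL
  congr 1
  have : ∀ (a b : ℕ) (ha : a ≠ 0) (hb : b ≠ 0), a = b → as ha hk0 hk1 n = as hb hk0 hk1 n := by
    intro a b ha hb hab
    subst hab
    rfl
  exact this _ _ _ _ (by omega)

lemma EL_cont {k : ℝ} (hk0 : 0 ≤ k) (hk1 : k < 1) (f : 𝓢(ℂ, ℂ)) (L n : ℕ) :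
    Continuous (EL hk0 hk1 f L n) := T_cont (adm_as _ hk0 hk1 n) f

lemma EL_sum {k : ℝ} (hk0 : 0 ≤ k) (hk1 : k < 1) (f : 𝓢(ℂ, ℂ)) (L n : ℕ) (z : ℂ) :
    EL hk0 hk1 f L n z = ∑ j ∈ Finset.range (L + 2), ((((L + 2 : ℕ) : ℂ))⁻¹ *
      ((om (L + 2)) ^ j) ^ (L + 2 + 1 - n)) * T (sy (Nat.succ_ne_zero (L + 1)) hk0 hk1 j) f z := by
  unfold EL as
  rw [T_sum (Finset.range (L + 2)) (wt (L + 2) n) (fun j => sy (Nat.succ_ne_zero (L + 1)) hk0 hk1 j)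
    (fun j _ => adm_sy _ hk0 hk1 j) f z]
  rfl

/-- pointwise: Bessel and the power mean inequality -/
lemma pointwise {p : ℝ} (hp : 2 ≤ p) {k : ℝ} (hk0 : 0 ≤ k) (hk1 : k < 1) (f : 𝓢(ℂ, ℂ))
    (M L : ℕ) (hM : M < L + 2) (z : ℂ) :
    (∑ n ∈ Finset.range (M + 1), ‖EL hk0 hk1 f L n z‖ₑ ^ 2) ^ (p / 2)
      ≤ ∑ j ∈ Finset.range (L + 2), ((L + 2 : ℕ) : ℝ≥0∞)⁻¹ *
        ‖T (sy (Nat.succ_ne_zero (L + 1)) hk0 hk1 j) f z‖ₑ ^ p := by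
  set v : ℕ → ℂ := fun j => T (sy (Nat.succ_ne_zero (L + 1)) hk0 hk1 j) f z with hv
  have hb := bessel (Nat.succ_ne_zero (L + 1)) hM v
  have h1 : ∑ n ∈ Finset.range (M + 1), ‖EL hk0 hk1 f L n z‖ₑ ^ 2
      ≤ ∑ j ∈ Finset.range (L + 2), ((L + 2 : ℕ) : ℝ≥0∞)⁻¹ * ‖v j‖ₑ ^ 2 := by
    have e1 : ∑ n ∈ Finset.range (M + 1), ‖EL hk0 hk1 f L n z‖ₑ ^ 2
        = ENNReal.ofReal (∑ n ∈ Finset.range (M + 1), ‖EL hk0 hk1 f L n z‖ ^ 2) := by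
      rw [ENNReal.ofReal_sum_of_nonneg (fun _ _ => by positivity)]
      refine Finset.sum_congr rfl fun n _ => ?_
      rw [← ofReal_norm, ENNReal.ofReal_pow (norm_nonneg _)]
    have e2 : ∑ j ∈ Finset.range (L + 2), ((L + 2 : ℕ) : ℝ≥0∞)⁻¹ * ‖v j‖ₑ ^ 2
        = ENNReal.ofReal ((((L + 2 : ℕ) : ℝ))⁻¹ * ∑ j ∈ Finset.range (L + 2), ‖v j‖ ^ 2) := by
      rw [ENNReal.ofReal_mul (by positivity), ENNReal.ofReal_sum_of_nonneg (fun _ _ => by positivity),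
        ← Finset.mul_sum]
      congr 1
      · rw [ENNReal.ofReal_inv_of_pos (by positivity), ENNReal.ofReal_natCast]
      · refine Finset.sum_congr rfl fun n _ => ?_
        rw [← ofReal_norm, ENNReal.ofReal_pow (norm_nonneg _)]
    rw [e1, e2]
    apply ENNReal.ofReal_le_ofReal
    refine le_trans (le_of_eq ?_) hb
    refine Finset.sum_congr rfl fun n _ => ?_
    rw [EL_sum hk0 hk1 f L n z]
  have hw : ∑ j ∈ Finset.range (L + 2), ((L + 2 : ℕ) : ℝ≥0∞)⁻¹ = 1 := by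
    rw [Finset.sum_const, Finset.card_range, nsmul_eq_mul]
    exact ENNReal.mul_inv_cancel (by exact_mod_cast Nat.succ_ne_zero (L + 1)) (ENNReal.natCast_ne_top _)
  calc (∑ n ∈ Finset.range (M + 1), ‖EL hk0 hk1 f L n z‖ₑ ^ 2) ^ (p / 2)
      ≤ (∑ j ∈ Finset.range (L + 2), ((L + 2 : ℕ) : ℝ≥0∞)⁻¹ * ‖v j‖ₑ ^ 2) ^ (p / 2) := by
        exact ENNReal.rpow_le_rpow h1 (by linarith)
    _ ≤ ∑ j ∈ Finset.range (L + 2), ((L + 2 : ℕ) : ℝ≥0∞)⁻¹ * (‖v j‖ₑ ^ 2) ^ (p / 2) :=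
        ENNReal.rpow_arith_mean_le_arith_mean_rpow _ _ _ hw (by linarith)
    _ = _ := by
        refine Finset.sum_congr rfl fun j _ => ?_
        rw [← ENNReal.rpow_natCast, ← ENNReal.rpow_mul]
        congr 2
        push_cast
        ring

/-- the norm inequality as an integral inequality -/
lemma to_lint {p : ℝ} (hp : 0 < p) {K : ℝ≥0∞} {g h : ℂ → ℂ}
    (hb : eLpNorm g (ENNReal.ofReal p) volume ≤ K * eLpNorm h (ENNReal.ofReal p) volume) :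
    ∫⁻ z : ℂ, ‖g z‖ₑ ^ p ≤ K ^ p * ∫⁻ z : ℂ, ‖h z‖ₑ ^ p := by
  have hp0 : ENNReal.ofReal p ≠ 0 := by simpa using hp
  have hpt : ENNReal.ofReal p ≠ ∞ := ENNReal.ofReal_ne_top
  rw [eLpNorm_eq_lintegral_rpow_enorm_toReal hp0 hpt, eLpNorm_eq_lintegral_rpow_enorm_toReal hp0 hpt,
    ENNReal.toReal_ofReal hp.le] at hb
  have h2 := ENNReal.rpow_le_rpow hb hp.le
  rw [ENNReal.mul_rpow_of_nonneg _ _ hp.le, ← ENNReal.rpow_mul, ← ENNReal.rpow_mul,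
    one_div_mul_cancel hp.ne', ENNReal.rpow_one, ENNReal.rpow_one] at h2
  exact h2

/-- the inequality before the limit -/
lemma before_limit {p : ℝ} (hp : 2 ≤ p) {K : ℝ≥0∞}
    (hb : ∀ f : 𝓢(ℂ, ℂ), eLpNorm (T bs f) (ENNReal.ofReal p) volume
      ≤ K * eLpNorm f (ENNReal.ofReal p) volume)
    {k : ℝ} (hk0 : 0 ≤ k) (hk1 : k < 1) (f : 𝓢(ℂ, ℂ)) (M L : ℕ) (hM : M < L + 2) :
    ∫⁻ z : ℂ, (∑ n ∈ Finset.range (M + 1), ‖EL hk0 hk1 f L n z‖ₑ ^ 2) ^ (p / 2)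
      ≤ K ^ p * ∫⁻ z : ℂ, ‖f z‖ₑ ^ p := by
  have hp0 : 0 < p := by linarith
  have hj : ∀ j : ℕ, ∫⁻ z : ℂ, ‖T (sy (Nat.succ_ne_zero (L + 1)) hk0 hk1 j) f z‖ₑ ^ p
      ≤ K ^ p * ∫⁻ z : ℂ, ‖f z‖ₑ ^ p := by
    intro j
    exact to_lint hp0 (bound_cmp ENNReal.ofReal_ne_top bs hb _ (hk (Nat.succ_ne_zero (L + 1)) hk0 hk1 j) f)
  have hmeas : ∀ j : ℕ, Measurable fun z : ℂ => ‖T (sy (Nat.succ_ne_zero (L + 1)) hk0 hk1 j) f z‖ₑ ^ p :=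
    fun j => (((T_cont (adm_sy _ hk0 hk1 j) f).measurable).enorm).pow_const p
  calc ∫⁻ z : ℂ, (∑ n ∈ Finset.range (M + 1), ‖EL hk0 hk1 f L n z‖ₑ ^ 2) ^ (p / 2)
      ≤ ∫⁻ z : ℂ, ∑ j ∈ Finset.range (L + 2), ((L + 2 : ℕ) : ℝ≥0∞)⁻¹ *
        ‖T (sy (Nat.succ_ne_zero (L + 1)) hk0 hk1 j) f z‖ₑ ^ p :=
        lintegral_mono fun z => pointwise hp hk0 hk1 f M L hM z
    _ = ∑ j ∈ Finset.range (L + 2), ((L + 2 : ℕ) : ℝ≥0∞)⁻¹ *
        ∫⁻ z : ℂ, ‖T (sy (Nat.succ_ne_zero (L + 1)) hk0 hk1 j) f z‖ₑ ^ p := by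
        rw [lintegral_finset_sum _ fun j _ => (hmeas j).const_mul _]
        refine Finset.sum_congr rfl fun j _ => ?_
        rw [lintegral_const_mul _ (hmeas j)]
    _ ≤ ∑ j ∈ Finset.range (L + 2), ((L + 2 : ℕ) : ℝ≥0∞)⁻¹ * (K ^ p * ∫⁻ z : ℂ, ‖f z‖ₑ ^ p) := by
        gcongr with j _
        exact hj j
    _ = _ := by
        rw [Finset.sum_const, Finset.card_range, nsmul_eq_mul, ← mul_assoc,
          ENNReal.mul_inv_cancel (by exact_mod_cast Nat.succ_ne_zero (L + 1))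
            (ENNReal.natCast_ne_top _), one_mul]

/-- the weights of the squares, `u = k ^ 2` -/
noncomputable def wu (u : ℝ) (n : ℕ) : ℝ := if n = 0 then u else (1 - u) ^ 2 * u ^ (n - 1)

lemma lc_sq {k : ℝ} (hk0 : 0 ≤ k) (n : ℕ) : ‖lc k n‖ₑ ^ 2 = ENNReal.ofReal (wu (k ^ 2) n) := by
  rw [← ofReal_norm, ← ENNReal.ofReal_pow (norm_nonneg _)]
  congr 1
  unfold lc wu
  split_ifs with h
  · rw [Complex.norm_real, Real.norm_of_nonneg hk0]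
  · rw [norm_mul, norm_pow, norm_neg, Complex.norm_real, Real.norm_of_nonneg hk0, mul_pow]
    have : (1 : ℂ) - (k : ℂ) ^ 2 = ((1 - k ^ 2 : ℝ) : ℂ) := by push_cast; ring
    rw [this, Complex.norm_real, Real.norm_eq_abs, sq_abs]
    ring

/-- the inequality for one `k`, finite sums -/
theorem fixed_k {p : ℝ} (hp : 2 ≤ p) {K : ℝ≥0∞}
    (hb : ∀ f : 𝓢(ℂ, ℂ), eLpNorm (T bs f) (ENNReal.ofReal p) volume
      ≤ K * eLpNorm f (ENNReal.ofReal p) volume)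
    {u : ℝ} (hu0 : 0 ≤ u) (hu1 : u < 1) (f : 𝓢(ℂ, ℂ)) (M : ℕ) :
    ∫⁻ z : ℂ, (∑ n ∈ Finset.range (M + 1), ENNReal.ofReal (wu u n) *
        ‖T (fun ξ => bs ξ ^ n) f z‖ₑ ^ 2) ^ (p / 2)
      ≤ K ^ p * ∫⁻ z : ℂ, ‖f z‖ₑ ^ p := by
  have hk0 : 0 ≤ Real.sqrt u := Real.sqrt_nonneg _
  have hk1 : Real.sqrt u < 1 := by
    rw [Real.sqrt_lt' one_pos]; simpa using hu1
  have hku : Real.sqrt u ^ 2 = u := Real.sq_sqrt hu0
  have hlim : ∀ z : ℂ, Tendsto (fun L : ℕ => (∑ n ∈ Finset.range (M + 1),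
      ‖EL hk0 hk1 f (M + L) n z‖ₑ ^ 2) ^ (p / 2)) atTop
      (𝓝 ((∑ n ∈ Finset.range (M + 1), ENNReal.ofReal (wu u n) *
        ‖T (fun ξ => bs ξ ^ n) f z‖ₑ ^ 2) ^ (p / 2))) := by
    intro z
    have h1 : ∀ n ∈ Finset.range (M + 1), Tendsto (fun L : ℕ => ‖EL hk0 hk1 f (M + L) n z‖ₑ ^ 2)
        atTop (𝓝 (ENNReal.ofReal (wu u n) * ‖T (fun ξ => bs ξ ^ n) f z‖ₑ ^ 2)) := by
      intro n _
      have h2 := (EL_tendsto hk0 hk1 f n z).comp (tendsto_add_atTop_nat M)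
      have h3 := (ENNReal.continuous_pow 2).tendsto _ |>.comp
        ((continuous_enorm.tendsto _).comp h2)
      have e : ‖lc (Real.sqrt u) n * T (fun ξ => bs ξ ^ n) f z‖ₑ ^ 2
          = ENNReal.ofReal (wu u n) * ‖T (fun ξ => bs ξ ^ n) f z‖ₑ ^ 2 := by
        rw [enorm_mul, mul_pow, lc_sq hk0, hku]
      rw [← e]
      refine h3.congr fun L => ?_
      simp only [Function.comp]
      rw [add_comm L M]
    exact ((ENNReal.continuous_rpow_const).tendsto _).comp (tendsto_finset_sum _ h1)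
  have hm : ∀ L : ℕ, Measurable fun z : ℂ => (∑ n ∈ Finset.range (M + 1),
      ‖EL hk0 hk1 f (M + L) n z‖ₑ ^ 2) ^ (p / 2) := by
    intro L
    refine (Finset.measurable_fun_sum _ fun n _ => ?_).pow_const _
    exact ((EL_cont hk0 hk1 f (M + L) n).measurable.enorm).pow_const 2
  calc ∫⁻ z : ℂ, (∑ n ∈ Finset.range (M + 1), ENNReal.ofReal (wu u n) *
        ‖T (fun ξ => bs ξ ^ n) f z‖ₑ ^ 2) ^ (p / 2)
      = ∫⁻ z : ℂ, liminf (fun L : ℕ => (∑ n ∈ Finset.range (M + 1),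
        ‖EL hk0 hk1 f (M + L) n z‖ₑ ^ 2) ^ (p / 2)) atTop :=
        lintegral_congr fun z => ((hlim z).liminf_eq).symm
    _ ≤ liminf (fun L : ℕ => ∫⁻ z : ℂ, (∑ n ∈ Finset.range (M + 1),
        ‖EL hk0 hk1 f (M + L) n z‖ₑ ^ 2) ^ (p / 2)) atTop := lintegral_liminf_le hm
    _ ≤ liminf (fun _ : ℕ => K ^ p * ∫⁻ z : ℂ, ‖f z‖ₑ ^ p) atTop := by
        refine liminf_le_liminf (Eventually.of_forall fun L => ?_)
        exact before_limit hp hb hk0 hk1 f M (M + L) (by omega)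
    _ = _ := by simp

end Pool.Agent.Y338.BP
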