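import Pool.Agent.Y338.BP.C

set_option autoImplicit false

open MeasureTheory Filter Topology ComplexConjugate Set
open scoped SchwartzMap ENNReal NNReal FourierTransform

namespace Pool.Agent.Y338.BP

open Pool.Agent.TH55.PowA

/-- Jensen for probability measures -/
lemma jensen {α : Type*} [MeasurableSpace α] (ν : Measure α) [IsProbabilityMeasure ν]
    {g : α → ℝ≥0∞} (hg : Measurable g) {r : ℝ} (hr : 1 ≤ r) :
    (∫⁻ a, g a ∂ν) ^ r ≤ ∫⁻ a, g a ^ r ∂ν := by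
  rcases hr.eq_or_lt with h | h
  · subst h; simp
  · have hr0 : 0 < r := by linarith
    have hc := Real.HolderConjugate.conjExponent h
    have h1 := ENNReal.lintegral_mul_le_Lp_mul_Lq ν hc hg.aemeasurable
      (measurable_const (a := (1 : ℝ≥0∞))).aemeasurable
    simp only [Pi.mul_apply, mul_one, ENNReal.one_rpow, lintegral_one, measure_univ] at h1
    have h2 := ENNReal.rpow_le_rpow h1 hr0.le
    rwa [← ENNReal.rpow_mul, one_div_mul_cancel hr0.ne', ENNReal.rpow_one] at h2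

lemma wu_meas (n : ℕ) : Measurable fun u : ℝ => ENNReal.ofReal (wu u n) := by
  unfold wu
  split_ifs <;> fun_prop

lemma Tn_meas (f : 𝓢(ℂ, ℂ)) (n : ℕ) : Measurable fun z : ℂ => T (fun ξ => bs ξ ^ n) f z := by
  refine (T_cont ⟨bs_meas.pow_const n, fun ξ => ?_⟩ f).measurable
  rw [norm_pow]
  exact pow_le_one₀ (norm_nonneg _) (bs_norm_le ξ)

/-- finite sums, general `ν` -/
theorem general_fin {p : ℝ} (hp : 2 ≤ p) {K : ℝ≥0∞}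
    (hb : ∀ f : 𝓢(ℂ, ℂ), eLpNorm (T bs f) (ENNReal.ofReal p) volume
      ≤ K * eLpNorm f (ENNReal.ofReal p) volume)
    (ν : Measure ℝ) [IsProbabilityMeasure ν] (hν : ∀ᵐ u ∂ν, 0 ≤ u ∧ u < 1) (f : 𝓢(ℂ, ℂ)) (M : ℕ) :
    ∫⁻ z : ℂ, (∑ n ∈ Finset.range (M + 1), (∫⁻ u, ENNReal.ofReal (wu u n) ∂ν) *
        ‖T (fun ξ => bs ξ ^ n) f z‖ₑ ^ 2) ^ (p / 2)
      ≤ K ^ p * ∫⁻ z : ℂ, ‖f z‖ₑ ^ p := by
  have hz : ∀ z : ℂ, (∑ n ∈ Finset.range (M + 1), (∫⁻ u, ENNReal.ofReal (wu u n) ∂ν) *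
        ‖T (fun ξ => bs ξ ^ n) f z‖ₑ ^ 2) ^ (p / 2)
      ≤ ∫⁻ u, (∑ n ∈ Finset.range (M + 1), ENNReal.ofReal (wu u n) *
        ‖T (fun ξ => bs ξ ^ n) f z‖ₑ ^ 2) ^ (p / 2) ∂ν := by
    intro z
    have e : ∑ n ∈ Finset.range (M + 1), (∫⁻ u, ENNReal.ofReal (wu u n) ∂ν) *
        ‖T (fun ξ => bs ξ ^ n) f z‖ₑ ^ 2
        = ∫⁻ u, ∑ n ∈ Finset.range (M + 1), ENNReal.ofReal (wu u n) *
        ‖T (fun ξ => bs ξ ^ n) f z‖ₑ ^ 2 ∂ν := by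
      rw [lintegral_finset_sum _ fun n _ => (wu_meas n).mul_const _]
      refine Finset.sum_congr rfl fun n _ => ?_
      rw [lintegral_mul_const _ (wu_meas n)]
    rw [e]
    exact jensen ν (Finset.measurable_fun_sum _ fun n _ => (wu_meas n).mul_const _) (by linarith)
  calc ∫⁻ z : ℂ, (∑ n ∈ Finset.range (M + 1), (∫⁻ u, ENNReal.ofReal (wu u n) ∂ν) *
        ‖T (fun ξ => bs ξ ^ n) f z‖ₑ ^ 2) ^ (p / 2)
      ≤ ∫⁻ z : ℂ, ∫⁻ u, (∑ n ∈ Finset.range (M + 1), ENNReal.ofReal (wu u n) *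
        ‖T (fun ξ => bs ξ ^ n) f z‖ₑ ^ 2) ^ (p / 2) ∂ν := lintegral_mono hz
    _ = ∫⁻ u, (∫⁻ z : ℂ, (∑ n ∈ Finset.range (M + 1), ENNReal.ofReal (wu u n) *
        ‖T (fun ξ => bs ξ ^ n) f z‖ₑ ^ 2) ^ (p / 2)) ∂ν := by
        refine lintegral_lintegral_swap ?_
        refine Measurable.aemeasurable ?_
        unfold Function.uncurry
        refine (Finset.measurable_fun_sum _ fun n _ => ?_).pow_const _
        exact ((wu_meas n).comp measurable_snd).mul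
          ((((Tn_meas f n).comp measurable_fst).enorm).pow_const 2)
    _ ≤ ∫⁻ _u, (K ^ p * ∫⁻ z : ℂ, ‖f z‖ₑ ^ p) ∂ν := by
        refine lintegral_mono_ae ?_
        filter_upwards [hν] with u hu
        exact fixed_k hp hb hu.1 hu.2 f M
    _ = _ := by simp

/-- all powers, general `ν` -/
theorem general {p : ℝ} (hp : 2 ≤ p) {K : ℝ≥0∞}
    (hb : ∀ f : 𝓢(ℂ, ℂ), eLpNorm (T bs f) (ENNReal.ofReal p) volume
      ≤ K * eLpNorm f (ENNReal.ofReal p) volume)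
    (ν : Measure ℝ) [IsProbabilityMeasure ν] (hν : ∀ᵐ u ∂ν, 0 ≤ u ∧ u < 1) (f : 𝓢(ℂ, ℂ)) :
    ∫⁻ z : ℂ, (∑' n : ℕ, (∫⁻ u, ENNReal.ofReal (wu u n) ∂ν) *
        ‖T (fun ξ => bs ξ ^ n) f z‖ₑ ^ 2) ^ (p / 2)
      ≤ K ^ p * ∫⁻ z : ℂ, ‖f z‖ₑ ^ p := by
  have hlim : ∀ z : ℂ, Tendsto (fun M : ℕ => (∑ n ∈ Finset.range (M + 1),
      (∫⁻ u, ENNReal.ofReal (wu u n) ∂ν) * ‖T (fun ξ => bs ξ ^ n) f z‖ₑ ^ 2) ^ (p / 2)) atTop
      (𝓝 ((∑' n : ℕ, (∫⁻ u, ENNReal.ofReal (wu u n) ∂ν) *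
        ‖T (fun ξ => bs ξ ^ n) f z‖ₑ ^ 2) ^ (p / 2))) := by
    intro z
    have h1 := (ENNReal.tendsto_nat_tsum (fun n : ℕ => (∫⁻ u, ENNReal.ofReal (wu u n) ∂ν) *
        ‖T (fun ξ => bs ξ ^ n) f z‖ₑ ^ 2)).comp (tendsto_add_atTop_nat 1)
    exact ((ENNReal.continuous_rpow_const).tendsto _).comp h1
  have hm : ∀ M : ℕ, Measurable fun z : ℂ => (∑ n ∈ Finset.range (M + 1),
      (∫⁻ u, ENNReal.ofReal (wu u n) ∂ν) * ‖T (fun ξ => bs ξ ^ n) f z‖ₑ ^ 2) ^ (p / 2) := by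
    intro M
    refine (Finset.measurable_fun_sum _ fun n _ => ?_).pow_const _
    exact (((Tn_meas f n).enorm).pow_const 2).const_mul _
  calc ∫⁻ z : ℂ, (∑' n : ℕ, (∫⁻ u, ENNReal.ofReal (wu u n) ∂ν) *
        ‖T (fun ξ => bs ξ ^ n) f z‖ₑ ^ 2) ^ (p / 2)
      = ∫⁻ z : ℂ, liminf (fun M : ℕ => (∑ n ∈ Finset.range (M + 1),
      (∫⁻ u, ENNReal.ofReal (wu u n) ∂ν) * ‖T (fun ξ => bs ξ ^ n) f z‖ₑ ^ 2) ^ (p / 2)) atTop :=
        lintegral_congr fun z => ((hlim z).liminf_eq).symm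
    _ ≤ liminf (fun M : ℕ => ∫⁻ z : ℂ, (∑ n ∈ Finset.range (M + 1),
      (∫⁻ u, ENNReal.ofReal (wu u n) ∂ν) * ‖T (fun ξ => bs ξ ^ n) f z‖ₑ ^ 2) ^ (p / 2)) atTop :=
        lintegral_liminf_le hm
    _ ≤ liminf (fun _ : ℕ => K ^ p * ∫⁻ z : ℂ, ‖f z‖ₑ ^ p) atTop := by
        refine liminf_le_liminf (Eventually.of_forall fun M => ?_)
        exact general_fin hp hb ν hν f M
    _ = _ := by simp

/-- Fourier inversion -/
lemma T_zero (f : 𝓢(ℂ, ℂ)) (z : ℂ) : T (fun ξ => bs ξ ^ 0) f z = f z := by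
  have h1 : T (fun ξ => bs ξ ^ 0) f z = (𝓕⁻ (⇑(𝓕 f : 𝓢(ℂ, ℂ)) : ℂ → ℂ)) z := by
    rw [Real.fourierInv_eq']
    unfold T
    refine integral_congr_ae (Eventually.of_forall fun ξ => ?_)
    simp only [pow_zero, one_mul, smul_eq_mul]
    rw [Ft_fun]
    have : (inner ℝ ξ z : ℝ) = sm z ξ := by
      rw [Complex.inner]
      simp [sm]
    rw [this]
    congr 2
    push_cast
    ring
  rw [h1, SchwartzMap.fourier_coe]
  have h2 := Continuous.fourierInv_fourier_eq f.continuous f.integrable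
    (by rw [← SchwartzMap.fourier_coe]; exact (𝓕 f : 𝓢(ℂ, ℂ)).integrable)
  exact congrFun h2 z

end Pool.Agent.Y338.BP
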