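import Pool.Agent.Y338.BP.D

set_option autoImplicit false

open MeasureTheory Filter Topology ComplexConjugate Set
open scoped SchwartzMap ENNReal NNReal FourierTransform ContDiff

namespace Pool.Agent.Y338.BP

open Pool.Agent.TH55.PowA

lemma fourier_toLp_ae (h : ℂ → ℂ) (h1 : Integrable h) (h2 : MemLp h 2) :
    (𝓕 (h2.toLp h : Lp (α := ℂ) ℂ 2) : Lp (α := ℂ) ℂ 2) =ᵐ[volume] 𝓕 h := by
  apply ae_eq_of_integral_contDiff_smul_eq
  · exact (Lp.memLp _).locallyIntegrable (by norm_num)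
  · apply Continuous.locallyIntegrable
    exact VectorFourier.fourierIntegral_continuous Real.continuous_fourierChar
      (innerSL ℝ).continuous₂ h1
  · intro g g_smooth g_cpt
    have hg₁ : HasCompactSupport (Complex.ofRealCLM ∘ g) := g_cpt.comp_left rfl
    have hg₂ : ContDiff ℝ ∞ (Complex.ofRealCLM ∘ g) := by fun_prop
    set G : 𝓢(ℂ, ℂ) := hg₁.toSchwartzMap hg₂ with hG
    have e1 : ∫ x, g x • (𝓕 (h2.toLp h : Lp (α := ℂ) ℂ 2) : Lp (α := ℂ) ℂ 2) x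
        = (Lp.toTemperedDistribution (𝓕 (h2.toLp h : Lp (α := ℂ) ℂ 2) : Lp (α := ℂ) ℂ 2)) G := by
      rw [Lp.toTemperedDistribution_apply]
      simp [hG]
    rw [e1, ← Lp.fourier_toTemperedDistribution_eq, TemperedDistribution.fourier_apply,
      Lp.toTemperedDistribution_apply]
    have e2 : ∫ x, (𝓕 G) x • (h2.toLp h : Lp (α := ℂ) ℂ 2) x = ∫ x, (𝓕 (G : ℂ → ℂ)) x • h x := by
      apply integral_congr_ae
      filter_upwards [h2.coeFn_toLp] with x hx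
      rw [hx]
      rfl
    rw [e2]
    have e3 : ∫ x, (𝓕 (G : ℂ → ℂ)) x • h x = ∫ x, (G x) • (𝓕 h) x := by
      simpa using! (VectorFourier.integral_fourierIntegral_smul_eq_flip (L := innerₗ ℂ)
        Real.continuous_fourierChar continuous_inner G.integrable h1)
    rw [e3]
    apply integral_congr_ae
    filter_upwards with x
    simp [hG]

lemma plancherel_lintegral (h : ℂ → ℂ) (h1 : Integrable h) (h2 : MemLp h 2) :
    ∫⁻ ξ, ‖𝓕 h ξ‖ₑ ^ 2 = ∫⁻ t, ‖h t‖ₑ ^ 2 := by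
  have e1 : ‖(𝓕 (h2.toLp h : Lp (α := ℂ) ℂ 2) : Lp (α := ℂ) ℂ 2)‖ₑ = ‖(h2.toLp h : Lp (α := ℂ) ℂ 2)‖ₑ := by
    rw [← ofReal_norm, ← ofReal_norm, Lp.norm_fourier_eq]
  rw [Lp.enorm_def, Lp.enorm_def, eLpNorm_congr_ae (fourier_toLp_ae h h1 h2),
    eLpNorm_congr_ae h2.coeFn_toLp] at e1
  have e2 : ∀ f : ℂ → ℂ, eLpNorm f 2 volume = (∫⁻ x, ‖f x‖ₑ ^ 2) ^ (1 / 2 : ℝ) := by
    intro f
    rw [eLpNorm_eq_lintegral_rpow_enorm_toReal (by norm_num) (by norm_num)]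
    simp
  rw [e2, e2] at e1
  exact ENNReal.rpow_left_injective (by norm_num) e1

/-- Plancherel for the powers -/
lemma T_two (f : 𝓢(ℂ, ℂ)) (n : ℕ) :
    ∫⁻ z : ℂ, ‖T (fun ξ => bs ξ ^ n) f z‖ₑ ^ 2 = ∫⁻ z : ℂ, ‖f z‖ₑ ^ 2 := by
  have hFm : MemLp (Ft f) 2 (volume : Measure ℂ) := by
    rw [Ft_fun]
    exact (𝓕 f : 𝓢(ℂ, ℂ)).memLp 2 volume
  have hbm : Measurable fun ξ : ℂ => bs ξ ^ n := bs_meas.pow_const n
  have hble : ∀ ξ : ℂ, ‖bs ξ ^ n‖ ≤ 1 := fun ξ => by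
    rw [norm_pow]; exact pow_le_one₀ (norm_nonneg _) (bs_norm_le ξ)
  set h : ℂ → ℂ := fun ξ => bs ξ ^ n * Ft f ξ with hh
  have h1 : Integrable h := (Ft_int f).bdd_mul hbm.aestronglyMeasurable
    (Eventually.of_forall hble)
  have h2 : MemLp h 2 (volume : Measure ℂ) := by
    refine hFm.of_le (hbm.aestronglyMeasurable.mul hFm.1) (Eventually.of_forall fun ξ => ?_)
    rw [hh]
    simp only [norm_mul]
    calc ‖bs ξ ^ n‖ * ‖Ft f ξ‖ ≤ 1 * ‖Ft f ξ‖ := by gcongr; exact hble ξ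
      _ = _ := one_mul _
  have e1 : ∀ z : ℂ, T (fun ξ => bs ξ ^ n) f z = 𝓕 h (-z) := by
    intro z
    rw [Real.fourier_eq']
    unfold T
    refine integral_congr_ae (Eventually.of_forall fun ξ => ?_)
    simp only [smul_eq_mul, hh]
    have : (inner ℝ ξ (-z) : ℝ) = - sm z ξ := by
      rw [inner_neg_right, Complex.inner]
      simp [sm]
    rw [this]
    congr 2
    push_cast
    ring
  have e2 : ∫⁻ z : ℂ, ‖T (fun ξ => bs ξ ^ n) f z‖ₑ ^ 2 = ∫⁻ z : ℂ, ‖𝓕 h z‖ₑ ^ 2 := by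
    simp only [e1]
    exact lintegral_neg_eq_self (μ := (volume : Measure ℂ)) (f := fun z : ℂ => ‖𝓕 h z‖ₑ ^ 2)
  have e3 : ∫⁻ ξ : ℂ, ‖h ξ‖ₑ ^ 2 = ∫⁻ ξ : ℂ, ‖Ft f ξ‖ₑ ^ 2 := by
    refine lintegral_congr_ae ?_
    filter_upwards [ae_ne] with ξ hξ
    have : ‖h ξ‖ₑ = ‖Ft f ξ‖ₑ := by
      rw [hh]
      simp only [enorm_mul]
      have : ‖bs ξ ^ n‖ₑ = 1 := by
        rw [← ofReal_norm, norm_pow, bs_norm ξ hξ, one_pow, ENNReal.ofReal_one]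
      rw [this, one_mul]
    rw [this]
  rw [e2, plancherel_lintegral h h1 h2, e3, Ft_fun]
  rw [SchwartzMap.fourier_coe]
  exact plancherel_lintegral _ f.integrable (f.memLp 2 volume)

/-- the weights add up to `1` -/
lemma wu_sum {u : ℝ} (hu0 : 0 ≤ u) (hu1 : u < 1) : ∑' n : ℕ, ENNReal.ofReal (wu u n) = 1 := by
  have hs : HasSum (fun n : ℕ => (1 - u) ^ 2 * u ^ n) ((1 - u) ^ 2 * (1 - u)⁻¹) :=
    (hasSum_geometric_of_lt_one hu0 hu1).mul_left _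
  have h1u : 1 - u ≠ 0 := by linarith
  have hs' : HasSum (fun n : ℕ => (1 - u) ^ 2 * u ^ n) (1 - u) := by
    convert hs using 1
    field_simp
  have hs2 : HasSum (fun n : ℕ => wu u n) 1 := by
    rw [← hasSum_nat_add_iff' 1]
    simp only [Finset.range_one, Finset.sum_singleton]
    have e : (fun n : ℕ => wu u (n + 1)) = fun n : ℕ => (1 - u) ^ 2 * u ^ n := by
      funext n
      unfold wu
      simp
    have e0 : wu u 0 = u := by simp [wu]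
    rw [e, e0]
    exact hs'
  have hnn : ∀ n : ℕ, 0 ≤ wu u n := by
    intro n
    unfold wu
    split_ifs
    · exact hu0
    · positivity
  rw [← ENNReal.ofReal_tsum_of_nonneg hnn hs2.summable, hs2.tsum_eq, ENNReal.ofReal_one]

/-- equality for `p = 2` -/
theorem two_eq (ν : Measure ℝ) [IsProbabilityMeasure ν] (hν : ∀ᵐ u ∂ν, 0 ≤ u ∧ u < 1)
    (f : 𝓢(ℂ, ℂ)) :
    ∫⁻ z : ℂ, (∑' n : ℕ, (∫⁻ u, ENNReal.ofReal (wu u n) ∂ν) *
        ‖T (fun ξ => bs ξ ^ n) f z‖ₑ ^ 2) = ∫⁻ z : ℂ, ‖f z‖ₑ ^ 2 := by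
  rw [lintegral_tsum fun n => ((((Tn_meas f n).enorm).pow_const 2).const_mul _).aemeasurable]
  have h1 : ∀ n : ℕ, ∫⁻ z : ℂ, (∫⁻ u, ENNReal.ofReal (wu u n) ∂ν) *
        ‖T (fun ξ => bs ξ ^ n) f z‖ₑ ^ 2
      = (∫⁻ u, ENNReal.ofReal (wu u n) ∂ν) * ∫⁻ z : ℂ, ‖f z‖ₑ ^ 2 := by
    intro n
    rw [lintegral_const_mul _ (((Tn_meas f n).enorm).pow_const 2), T_two]
  simp only [h1]
  rw [ENNReal.tsum_mul_right, ← lintegral_tsum fun n => (wu_meas n).aemeasurable]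
  have h2 : ∫⁻ u, ∑' n : ℕ, ENNReal.ofReal (wu u n) ∂ν = 1 := by
    rw [lintegral_congr_ae (g := fun _ => (1 : ℝ≥0∞))]
    · simp
    · filter_upwards [hν] with u hu
      exact wu_sum hu.1 hu.2
  rw [h2, one_mul]

end Pool.Agent.Y338.BP
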