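import Pool.Agent.Y338.BP.E
import Pool.Agent.TH55.PowE

set_option autoImplicit false

open MeasureTheory Filter Topology Set
open scoped SchwartzMap ENNReal

namespace Pool.Agent.Y338.BP

open Pool.Agent.TH55.PowA

lemma base' (p : ℝ) (hp : 2 ≤ p) (f : 𝓢(ℂ, ℂ)) :
    eLpNorm (T bs f) (ENNReal.ofReal p) volume
      ≤ ENNReal.ofReal (p - 1) * eLpNorm f (ENNReal.ofReal p) volume := base p hp f

lemma const_pow {p : ℝ} (hp : 2 ≤ p) : (ENNReal.ofReal (p - 1)) ^ p = ENNReal.ofReal ((p - 1) ^ p) :=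
  ENNReal.ofReal_rpow_of_nonneg (by linarith) (by linarith)

/-- split off the term `n = 0` -/
lemma split_zero (w : ℕ → ℝ≥0∞) (f : 𝓢(ℂ, ℂ)) (z : ℂ) :
    ∑' n : ℕ, w n * ‖T (fun ξ => bs ξ ^ n) f z‖ₑ ^ 2
      = w 0 * ‖f z‖ₑ ^ 2 + ∑' m : ℕ, w (m + 1) * ‖T (fun ξ => bs ξ ^ (m + 1)) f z‖ₑ ^ 2 := by
  rw [tsum_eq_zero_add' ENNReal.summable, T_zero]

/-- the uniform measure -/
noncomputable def un : Measure ℝ := volume.restrict (Ico (0 : ℝ) 1)

instance : IsProbabilityMeasure un := ⟨by simp [un]⟩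

lemma un_ae : ∀ᵐ u ∂un, 0 ≤ u ∧ u < 1 := by
  unfold un
  filter_upwards [ae_restrict_mem (measurableSet_Ico (a := (0 : ℝ)) (b := 1))] with u hu
  exact ⟨hu.1, hu.2⟩

lemma un_int (g : ℝ → ℝ) (hg : Continuous g) (hn : ∀ u, 0 ≤ u → u ≤ 1 → 0 ≤ g u) :
    ∫⁻ u, ENNReal.ofReal (g u) ∂un = ENNReal.ofReal (∫ u in (0 : ℝ)..1, g u) := by
  rw [intervalIntegral.integral_of_le zero_le_one, ← integral_Ico_eq_integral_Ioc]
  unfold un
  rw [ofReal_integral_eq_lintegral_ofReal]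
  · exact (hg.integrableOn_Icc (a := 0) (b := 1)).mono_set Ico_subset_Icc_self
  · filter_upwards [ae_restrict_mem (measurableSet_Ico (a := (0 : ℝ)) (b := 1))] with u hu
    exact hn u hu.1 hu.2.le

lemma un_zero : ∫⁻ u, ENNReal.ofReal (wu u 0) ∂un = ENNReal.ofReal (1 / 2) := by
  have e : (fun u : ℝ => ENNReal.ofReal (wu u 0)) = fun u => ENNReal.ofReal (id u) := by
    funext u; simp [wu]
  rw [e, un_int id continuous_id (fun u h _ => h)]
  congr 1
  simp

lemma un_succ (m : ℕ) : ∫⁻ u, ENNReal.ofReal (wu u (m + 1)) ∂un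
    = ENNReal.ofReal (2 / (((m : ℝ) + 1) * (m + 2) * (m + 3))) := by
  have e : (fun u : ℝ => ENNReal.ofReal (wu u (m + 1)))
      = fun u => ENNReal.ofReal ((1 - u) ^ 2 * u ^ m) := by
    funext u; simp [wu]
  rw [e, un_int (fun u => (1 - u) ^ 2 * u ^ m) (by fun_prop) (fun u h _ => by positivity)]
  congr 1
  have e2 : ∀ u : ℝ, (1 - u) ^ 2 * u ^ m = u ^ m - 2 * u ^ (m + 1) + u ^ (m + 2) := by
    intro u; ring
  simp only [e2]
  rw [intervalIntegral.integral_add, intervalIntegral.integral_sub,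
    intervalIntegral.integral_const_mul, integral_pow, integral_pow, integral_pow]
  · have h1 : (m : ℝ) + 1 ≠ 0 := by positivity
    have h2 : (m : ℝ) + 2 ≠ 0 := by positivity
    have h3 : (m : ℝ) + 3 ≠ 0 := by positivity
    have h2' : ((m + 1 : ℕ) : ℝ) + 1 ≠ 0 := by positivity
    have h3' : ((m + 2 : ℕ) : ℝ) + 1 ≠ 0 := by positivity
    push_cast
    simp only [one_pow, ne_eq, Nat.add_eq_zero_iff, one_ne_zero, and_false, not_false_eq_true,
      zero_pow, OfNat.ofNat_ne_zero, sub_zero]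
    have h2'' : (m : ℝ) + 1 + 1 ≠ 0 := by positivity
    have h3'' : (m : ℝ) + 2 + 1 ≠ 0 := by positivity
    field_simp
    ring
  all_goals
    exact (Continuous.intervalIntegrable (by fun_prop) _ _)

/-- one power of the ratio -/
lemma ratio (n : ℕ) (hn : 1 ≤ n) (m : ℕ) (hm : m < n) :
    1 ≤ (Real.exp 1 * (n : ℝ) ^ 2) * wu (1 - 1 / (n : ℝ)) (m + 1) := by
  have hnr : (1 : ℝ) ≤ n := by exact_mod_cast hn
  have hn0 : (0 : ℝ) < n := by linarith
  have e : wu (1 - 1 / (n : ℝ)) (m + 1) = (1 / (n : ℝ)) ^ 2 * (1 - 1 / (n : ℝ)) ^ m := by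
    unfold wu
    simp
  rw [e]
  have h0 : 0 ≤ 1 - 1 / (n : ℝ) := by
    rw [sub_nonneg, div_le_one hn0]; exact hnr
  have h1 : 1 - 1 / (n : ℝ) ≤ 1 := by
    have : 0 < 1 / (n : ℝ) := by positivity
    linarith
  have h2 : (1 - 1 / (n : ℝ)) ^ (n - 1) ≤ (1 - 1 / (n : ℝ)) ^ m :=
    pow_le_pow_of_le_one h0 h1 (by omega)
  have h3 : Real.exp (-1) ≤ (1 - 1 / (n : ℝ)) ^ (n - 1) := by
    rcases Nat.lt_or_ge 1 n with h | h
    · have hnr' : (1 : ℝ) < n := by exact_mod_cast h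
      have hpos : 0 < 1 - 1 / (n : ℝ) := by
        rw [sub_pos, div_lt_one hn0]; exact hnr'
      have h4 : (1 - 1 / (n : ℝ))⁻¹ ≤ Real.exp (1 / ((n : ℝ) - 1)) := by
        have h5 : (1 - 1 / (n : ℝ))⁻¹ = 1 / ((n : ℝ) - 1) + 1 := by
          have : (n : ℝ) - 1 ≠ 0 := by linarith
          field_simp
          ring
        rw [h5]
        exact Real.add_one_le_exp _
      have h6 : ((1 - 1 / (n : ℝ))⁻¹) ^ (n - 1) ≤ Real.exp 1 := by
        calc ((1 - 1 / (n : ℝ))⁻¹) ^ (n - 1) ≤ (Real.exp (1 / ((n : ℝ) - 1))) ^ (n - 1) :=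
              pow_le_pow_left₀ (by positivity) h4 _
          _ = Real.exp 1 := by
              rw [← Real.exp_nat_mul]
              congr 1
              rw [Nat.cast_sub hn]
              have : (n : ℝ) - 1 ≠ 0 := by linarith
              push_cast
              field_simp
      rw [inv_pow] at h6
      have h7 : 0 < (1 - 1 / (n : ℝ)) ^ (n - 1) := by positivity
      rw [Real.exp_neg]
      exact inv_le_of_inv_le₀ h7 h6
    · have : n = 1 := by omega
      subst this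
      simp
  have h8 : Real.exp 1 * Real.exp (-1) = 1 := by rw [← Real.exp_add]; simp
  calc (1 : ℝ) = Real.exp 1 * Real.exp (-1) := h8.symm
    _ ≤ Real.exp 1 * (1 - 1 / (n : ℝ)) ^ m := by
        have := h3.trans h2
        gcongr
    _ = _ := by field_simp

end Pool.Agent.Y338.BP
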