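import Pool.Agent.Y338.BP.F

set_option autoImplicit false

open MeasureTheory Filter Topology Set
open scoped SchwartzMap ENNReal

namespace Pool.Agent.Y338.BP

open Pool.Agent.TH55.PowA

lemma neg_lt {ζ : ℂ} (h : ‖ζ‖ < 1) : ‖-ζ‖ < 1 := by rwa [norm_neg]

lemma den_pos {ζ : ℂ} (h : ‖ζ‖ < 1) : 0 < 1 - ‖ζ‖ ^ 2 := by nlinarith [norm_nonneg ζ]

/-- the resolvent of the symbol -/
lemma res (ζ : ℂ) (h : ‖ζ‖ < 1) (ξ : ℂ) (hξ : ξ ≠ 0) :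
    (1 - ζ * bs ξ)⁻¹ = (1 + ζ * bs (Ae (-ζ) (neg_lt h) ξ)) / (((1 - ‖ζ‖ ^ 2 : ℝ)) : ℂ) := by
  have h1 := one_add_ne (-ζ) (neg_lt h) (bs ξ) (bs_norm ξ hξ)
  have h2 := bs_Ae (-ζ) (neg_lt h) ξ hξ
  have h3 : ζ * (starRingEnd ℂ) ζ = ((‖ζ‖ ^ 2 : ℝ) : ℂ) := c_conj ζ
  have h4 : (((1 - ‖ζ‖ ^ 2 : ℝ)) : ℂ) = 1 - ζ * (starRingEnd ℂ) ζ := by
    rw [h3]; push_cast; ring
  have h5 : (((1 - ‖ζ‖ ^ 2 : ℝ)) : ℂ) ≠ 0 := by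
    rw [Ne, Complex.ofReal_eq_zero]; exact (den_pos h).ne'
  have h1' : 1 - ζ * bs ξ ≠ 0 := by
    intro h0; apply h1; linear_combination h0
  have h6 : (1 + -ζ * bs ξ) = 1 - ζ * bs ξ := by ring
  rw [h2, map_neg, h6]
  rw [h4] at h5 ⊢
  generalize (starRingEnd ℂ) ζ = w at *
  rw [eq_div_iff h5, inv_mul_eq_iff_eq_mul₀ h1']
  field_simp
  ring

lemma adm_pow (n : ℕ) : Adm (fun ξ => bs ξ ^ n) :=
  ⟨bs_meas.pow_const n, fun ξ => by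
    rw [norm_pow]; exact pow_le_one₀ (norm_nonneg _) (bs_norm_le ξ)⟩

lemma adm_zero_int (f : 𝓢(ℂ, ℂ)) (z : ℂ) : Integrable (fun ξ : ℂ =>
    Complex.exp (2 * (Real.pi : ℂ) * Complex.I * ((sm z ξ : ℝ) : ℂ)) * Ft f ξ) := by
  have := T_integrand_int (adm_pow 0) f z
  simpa using this

lemma hasSum_T (ζ : ℂ) (h : ‖ζ‖ < 1) (f : 𝓢(ℂ, ℂ)) (z : ℂ) :
    HasSum (fun n : ℕ => ζ ^ n * T (fun ξ => bs ξ ^ n) f z)
      ((f z + ζ * T (fun ξ => bs (Ae (-ζ) (neg_lt h) ξ)) f z) / ((1 - ‖ζ‖ ^ 2 : ℝ) : ℂ)) := by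
  set e : ℂ → ℂ := fun ξ => Complex.exp (2 * (Real.pi : ℂ) * Complex.I * ((sm z ξ : ℝ) : ℂ)) with he
  have hen : ∀ ξ, ‖e ξ‖ = 1 := fun ξ => norm_ex _
  have hint : ∀ n : ℕ, Integrable (fun ξ : ℂ => ζ ^ n * (e ξ * (bs ξ ^ n * Ft f ξ))) :=
    fun n => (T_integrand_int (adm_pow n) f z).const_mul _
  have hb : ∀ (n : ℕ) (ξ : ℂ), ‖ζ ^ n * (e ξ * (bs ξ ^ n * Ft f ξ))‖ ≤ ‖ζ‖ ^ n * ‖Ft f ξ‖ := by
    intro n ξ
    rw [norm_mul, norm_pow, norm_mul, hen, one_mul, norm_mul, norm_pow]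
    have h1 : ‖bs ξ‖ ^ n ≤ 1 := pow_le_one₀ (norm_nonneg _) (bs_norm_le ξ)
    calc ‖ζ‖ ^ n * (‖bs ξ‖ ^ n * ‖Ft f ξ‖) ≤ ‖ζ‖ ^ n * (1 * ‖Ft f ξ‖) := by gcongr
      _ = _ := by rw [one_mul]
  have hsum : Summable fun n : ℕ => ∫ ξ, ‖ζ ^ n * (e ξ * (bs ξ ^ n * Ft f ξ))‖ := by
    refine Summable.of_nonneg_of_le (fun n => integral_nonneg fun _ => norm_nonneg _)
      (fun n => (integral_mono (hint n).norm ((Ft_int f).norm.const_mul _) (hb n)).trans_eq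
        (integral_const_mul _ _)) ?_
    exact (summable_geometric_of_lt_one (norm_nonneg _) h).mul_right _
  have hs := hasSum_integral_of_summable_integral_norm hint hsum
  have ht : ∀ n : ℕ, ∫ ξ, ζ ^ n * (e ξ * (bs ξ ^ n * Ft f ξ)) = ζ ^ n * T (fun ξ => bs ξ ^ n) f z := by
    intro n
    rw [integral_const_mul]
    rfl
  simp only [ht] at hs
  have hD : (((1 - ‖ζ‖ ^ 2 : ℝ)) : ℂ) ≠ 0 := by
    rw [Ne, Complex.ofReal_eq_zero]; exact (den_pos h).ne'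
  have hv : ∫ ξ, ∑' n : ℕ, ζ ^ n * (e ξ * (bs ξ ^ n * Ft f ξ))
      = (f z + ζ * T (fun ξ => bs (Ae (-ζ) (neg_lt h) ξ)) f z) / ((1 - ‖ζ‖ ^ 2 : ℝ) : ℂ) := by
    have h1 : ∫ ξ, ∑' n : ℕ, ζ ^ n * (e ξ * (bs ξ ^ n * Ft f ξ))
        = ∫ ξ, (((1 - ‖ζ‖ ^ 2 : ℝ)) : ℂ)⁻¹ * (e ξ * (bs ξ ^ 0 * Ft f ξ) +
          ζ * (e ξ * (bs (Ae (-ζ) (neg_lt h) ξ) * Ft f ξ))) := by
      refine integral_congr_ae ?_
      filter_upwards [ae_ne] with ξ hξ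
      have h2 : ∀ n : ℕ, ζ ^ n * (e ξ * (bs ξ ^ n * Ft f ξ)) = (ζ * bs ξ) ^ n * (e ξ * Ft f ξ) := by
        intro n; rw [mul_pow]; ring
      have h3 : ‖ζ * bs ξ‖ < 1 := by rw [norm_mul, bs_norm ξ hξ, mul_one]; exact h
      simp only [h2]
      rw [tsum_mul_right, tsum_geometric_of_norm_lt_one h3, res ζ h ξ hξ]
      field_simp
    rw [h1, integral_const_mul, integral_add (T_integrand_int (adm_pow 0) f z)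
      ((T_integrand_int (adm_bs _ (neg_lt h)) f z).const_mul _), integral_const_mul]
    have h4 : ∫ ξ, e ξ * (bs ξ ^ 0 * Ft f ξ) = f z := T_zero f z
    have h5 : ∫ ξ, e ξ * (bs (Ae (-ζ) (neg_lt h) ξ) * Ft f ξ)
        = T (fun ξ => bs (Ae (-ζ) (neg_lt h) ξ)) f z := rfl
    rw [h4, h5, inv_mul_eq_div]
  rw [hv] at hs
  exact hs

/-- the generating function of the powers -/
lemma gen_bound {p : ℝ} (hp : 2 ≤ p) (ζ : ℂ) (h : ‖ζ‖ < 1) (f : 𝓢(ℂ, ℂ)) :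
    eLpNorm (fun z => ∑' n : ℕ, ζ ^ n * T (fun ξ => bs ξ ^ n) f z) (ENNReal.ofReal p) volume
      ≤ ENNReal.ofReal ((1 + ‖ζ‖ * (p - 1)) / (1 - ‖ζ‖ ^ 2)) *
        eLpNorm f (ENNReal.ofReal p) volume := by
  have hd := den_pos h
  have e : (fun z => ∑' n : ℕ, ζ ^ n * T (fun ξ => bs ξ ^ n) f z)
      = (((1 - ‖ζ‖ ^ 2 : ℝ)) : ℂ)⁻¹ • ((f : ℂ → ℂ) +
        ζ • T (fun ξ => bs (Ae (-ζ) (neg_lt h) ξ)) f) := by
    funext z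
    rw [(hasSum_T ζ h f z).tsum_eq, Pi.smul_apply, Pi.add_apply, Pi.smul_apply, smul_eq_mul,
      smul_eq_mul, inv_mul_eq_div]
  have hT := bound_cmp (P := ENNReal.ofReal p) ENNReal.ofReal_ne_top bs
    (fun f => base' p hp f) (-ζ) (neg_lt h) f
  have hm1 : AEStronglyMeasurable (f : ℂ → ℂ) volume := f.continuous.aestronglyMeasurable
  have hm2 : AEStronglyMeasurable (ζ • T (fun ξ => bs (Ae (-ζ) (neg_lt h) ξ)) f) volume :=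
    (T_cont (adm_bs _ (neg_lt h)) f).aestronglyMeasurable.const_smul ζ
  have hP : 1 ≤ ENNReal.ofReal p := by
    rw [← ENNReal.ofReal_one]; exact ENNReal.ofReal_le_ofReal (by linarith)
  have hc : ‖(((1 - ‖ζ‖ ^ 2 : ℝ)) : ℂ)⁻¹‖ₑ = ENNReal.ofReal (1 - ‖ζ‖ ^ 2)⁻¹ := by
    rw [← ofReal_norm, norm_inv, Complex.norm_real, Real.norm_of_nonneg hd.le]
  have hz : ‖ζ‖ₑ = ENNReal.ofReal ‖ζ‖ := (ofReal_norm ζ).symm
  rw [e, eLpNorm_const_smul, hc]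
  calc ENNReal.ofReal (1 - ‖ζ‖ ^ 2)⁻¹ * eLpNorm ((f : ℂ → ℂ) +
        ζ • T (fun ξ => bs (Ae (-ζ) (neg_lt h) ξ)) f) (ENNReal.ofReal p) volume
      ≤ ENNReal.ofReal (1 - ‖ζ‖ ^ 2)⁻¹ * (eLpNorm f (ENNReal.ofReal p) volume +
        ENNReal.ofReal ‖ζ‖ * (ENNReal.ofReal (p - 1) * eLpNorm f (ENNReal.ofReal p) volume)) := by
        gcongr
        refine (eLpNorm_add_le hm1 hm2 hP).trans ?_
        gcongr
        rw [eLpNorm_const_smul, hz]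
        gcongr
    _ = _ := by
        rw [← mul_assoc (ENNReal.ofReal ‖ζ‖), ← ENNReal.ofReal_mul (norm_nonneg ζ),
          ← one_add_mul, ← mul_assoc, ← ENNReal.ofReal_one,
          ← ENNReal.ofReal_add zero_le_one (mul_nonneg (norm_nonneg ζ) (by linarith)),
          ← ENNReal.ofReal_mul (inv_nonneg.2 hd.le), inv_mul_eq_div]

/-- the sharp form: after subtracting the identity -/
lemma gen_sharp {p : ℝ} (hp : 2 ≤ p) (ζ : ℂ) (h : ‖ζ‖ < 1) (f : 𝓢(ℂ, ℂ)) :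
    eLpNorm (fun z => ((1 - ‖ζ‖ ^ 2 : ℝ) : ℂ) * ∑' n : ℕ, ζ ^ n * T (fun ξ => bs ξ ^ n) f z - f z)
      (ENNReal.ofReal p) volume
      ≤ ENNReal.ofReal (‖ζ‖ * (p - 1)) * eLpNorm f (ENNReal.ofReal p) volume := by
  have hD : (((1 - ‖ζ‖ ^ 2 : ℝ)) : ℂ) ≠ 0 := by
    rw [Ne, Complex.ofReal_eq_zero]; exact (den_pos h).ne'
  have e : (fun z => ((1 - ‖ζ‖ ^ 2 : ℝ) : ℂ) * ∑' n : ℕ, ζ ^ n * T (fun ξ => bs ξ ^ n) f z - f z)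
      = ζ • T (fun ξ => bs (Ae (-ζ) (neg_lt h) ξ)) f := by
    funext z
    rw [(hasSum_T ζ h f z).tsum_eq, Pi.smul_apply, smul_eq_mul, mul_div_cancel₀ _ hD]
    ring
  have hT := bound_cmp (P := ENNReal.ofReal p) ENNReal.ofReal_ne_top bs
    (fun f => base' p hp f) (-ζ) (neg_lt h) f
  have hz : ‖ζ‖ₑ = ENNReal.ofReal ‖ζ‖ := (ofReal_norm ζ).symm
  rw [e, eLpNorm_const_smul, hz, ENNReal.ofReal_mul (norm_nonneg ζ), mul_assoc]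
  gcongr

/-- the Abel means -/
lemma abel_bound {p : ℝ} (hp : 2 ≤ p) (ζ : ℂ) (h : ‖ζ‖ < 1) (f : 𝓢(ℂ, ℂ)) :
    eLpNorm (fun z => ((1 - ‖ζ‖ : ℝ) : ℂ) * ∑' n : ℕ, ζ ^ n * T (fun ξ => bs ξ ^ n) f z)
      (ENNReal.ofReal p) volume
      ≤ ENNReal.ofReal ((1 + ‖ζ‖ * (p - 1)) / (1 + ‖ζ‖)) *
        eLpNorm f (ENNReal.ofReal p) volume := by
  have h0 : 0 < 1 - ‖ζ‖ := by linarith
  have h1 : 0 < 1 + ‖ζ‖ := by positivity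
  have e : (fun z => ((1 - ‖ζ‖ : ℝ) : ℂ) * ∑' n : ℕ, ζ ^ n * T (fun ξ => bs ξ ^ n) f z)
      = ((1 - ‖ζ‖ : ℝ) : ℂ) • (fun z => ∑' n : ℕ, ζ ^ n * T (fun ξ => bs ξ ^ n) f z) := by
    funext z
    rw [Pi.smul_apply, smul_eq_mul]
  have hc : ‖((1 - ‖ζ‖ : ℝ) : ℂ)‖ₑ = ENNReal.ofReal (1 - ‖ζ‖) := by
    rw [← ofReal_norm, Complex.norm_real, Real.norm_of_nonneg h0.le]
  rw [e, eLpNorm_const_smul, hc]
  refine (mul_le_mul_right (gen_bound hp ζ h f) _).trans (le_of_eq ?_)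
  rw [← mul_assoc, ← ENNReal.ofReal_mul h0.le]
  congr 2
  have h2 : 1 - ‖ζ‖ ^ 2 = (1 - ‖ζ‖) * (1 + ‖ζ‖) := by ring
  rw [h2, ← mul_div_assoc, mul_div_mul_left _ _ h0.ne']

lemma abel_le {p r : ℝ} (hp : 2 ≤ p) (h0 : 0 ≤ r) (h1 : r < 1) :
    (1 + r * (p - 1)) / (1 + r) ≤ p / 2 := by
  rw [div_le_div_iff₀ (by linarith) (by norm_num)]
  nlinarith [mul_nonneg (sub_nonneg.2 hp) (sub_nonneg.2 h1.le)]

end Pool.Agent.Y338.BP
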